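import Pool.Agent.Y516.NW.StmPos
import Pool.Agent.Y421.NW.Acc
import Pool.Agent.Y421.NW.Ener
import Pool.Agent.Y275.NW.Boot
import Pool.Agent.T6.H52.NW.Step

set_option autoImplicit false

/-! MP_70f7a7_an: the clusters escape, in one direction of time. -/

namespace Pool.Agent.T6.H52.NW

open MeasureTheory Set Pool.Agent.Y516.NW

variable {N : ℕ}

theorem curve2 
    (m : Fin N → ℝ) (M μ : ℝ) (hμ : 0 < μ) (hm : ∀ i, μ ≤ m i) (hM : ∑ i, m i ≤ M)
    (a b : Fin N) (hab : a ≠ b) (q v : ℝ → Cfg N) (c τ : ℝ → ℝ) (E : ℝ) (hE : E ≤ 0)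
    (hmot : Mot m E q v c τ)
    (w δ : ℝ) (hw : 0 < w) (hδ : 0 < δ) (hC : 1000 * (M + M ^ 2 / μ) ≤ w ^ 2 * δ)
    (hX : ∀ i j, P2 a b i j → δ ≤ ‖cm m a b (q 0) i - cm m a b (q 0) j‖)
    (hG : ∀ i j, P2 a b i j →
      Ok w (cm m a b (q 0) i - cm m a b (q 0) j) (cm m a b (v 0) i - cm m a b (v 0) j))
    (hr : ‖q 0 a - q 0 b‖ ≤ δ / 16) :
    ∀ t, 0 ≤ t → ∀ i j, P2 a b i j →
      ‖(cm m a b (v t) i - cm m a b (v t) j) - (cm m a b (v 0) i - cm m a b (v 0) j)‖
        ≤ w / 8 := by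
  set X : Fin N → Fin N → E3 := fun i j => cm m a b (q 0) i - cm m a b (q 0) j with hXdef
  set V : Fin N → Fin N → E3 := fun i j => cm m a b (v 0) i - cm m a b (v 0) j with hVdef
  have hne : ∀ i j, P2 a b i j → X i j ≠ 0 := fun i j h =>
    norm_pos_iff.mp (hδ.trans_le (hX i j h))
  have hL1 : ∀ i j, P2 a b i j → ∀ s : ℝ, 0 ≤ s → w * ‖X i j‖ ≤ ‖V i j‖ * ‖X i j + s • V i j‖ :=
    fun i j h => (line2 (X i j) (V i j) w hw (hne i j h) (hG i j h)).1
  have hL2 : ∀ i j, P2 a b i j → ∀ s : ℝ, 0 ≤ s → s * w ≤ ‖X i j + s • V i j‖ :=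
    fun i j h => (line2 (X i j) (V i j) w hw (hne i j h) (hG i j h)).2.1
  have hT : ∀ i j, ∃ Θ Θ' : ℝ → ℝ, P2 a b i j →
      (∀ s, HasDerivAt Θ (Θ' s) s) ∧
      (∀ s, 0 ≤ s → 1 / ‖X i j + s • V i j‖ ^ 2 ≤ Θ' s) ∧
      ∀ s, Θ s - Θ 0 ≤ Real.pi / (w * ‖X i j‖) := by
    intro i j
    by_cases h : P2 a b i j
    · obtain ⟨Θ, Θ', h1, h2, h3⟩ := (line2 (X i j) (V i j) w hw (hne i j h) (hG i j h)).2.2
      exact ⟨Θ, Θ', fun _ => ⟨h1, h2, h3⟩⟩
    · exact ⟨fun _ => 0, fun _ => 0, fun h' => absurd h' h⟩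
  choose Θ Θ' hΘ using hT
  have hstep := fun (T : ℝ) (hT : 0 ≤ T) => step2 Pool.Agent.Y421.NW.accl Pool.Agent.Y421.NW.ener
    m M μ hμ hm hM a b hab q v c τ E hE
    hmot w δ hw hδ hC X V (fun _ _ => rfl) (fun _ _ => rfl) hX hL1 hL2 Θ Θ'
    (fun i j h => (hΘ i j h).1) (fun i j h => (hΘ i j h).2.1) (fun i j h => (hΘ i j h).2.2) T hT
  -- continuity
  have hτc : Continuous τ := continuous_iff_continuousAt.mpr fun t => (hmot.τd t).continuousAt
  have hqc : ∀ i, Continuous fun t => q t i := fun i =>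
    continuous_iff_continuousAt.mpr fun t => (hmot.qd t i).continuousAt
  have hcm : ∀ i, Continuous fun t => cm m a b (q t) i := fun i =>
    continuous_iff_continuousAt.mpr fun t =>
      (cm_hasDerivAt m a b q (fun i => c t • v t i) t (hmot.qd t) i).continuousAt
  have hDc : ∀ i j, Continuous fun t => ‖X i j + τ t • V i j‖ := fun i j =>
    (continuous_const.add (hτc.smul continuous_const)).norm
  let ι := {p : Fin N × Fin N // P2 a b p.1 p.2} × Bool
  let g : ι → ℝ → ℝ := fun α t =>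
    if α.2 then ‖X α.1.1.1 α.1.1.2 + τ t • V α.1.1.1 α.1.1.2‖ / 2
      - ‖(cm m a b (q t) α.1.1.1 - cm m a b (q t) α.1.1.2) - X α.1.1.1 α.1.1.2
        - τ t • V α.1.1.1 α.1.1.2‖
    else ‖X α.1.1.1 α.1.1.2 + τ t • V α.1.1.1 α.1.1.2‖ / 8 - ‖q t a - q t b‖
  have hg := Pool.Agent.Y275.NW.boot ι g
    (by
      rintro ⟨⟨⟨i, j⟩, hP⟩, _ | _⟩
      · exact ((hDc i j).div_const 8).sub ((hqc a).sub (hqc b)).norm
      · exact ((hDc i j).div_const 2).sub
          ((((hcm i).sub (hcm j)).sub continuous_const).sub (hτc.smul continuous_const)).norm)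
    (by
      rintro ⟨⟨⟨i, j⟩, hP⟩, _ | _⟩
      · have h1 := hX i j hP
        simp only [g, hmot.τ0, zero_smul, add_zero, Bool.false_eq_true, if_false]
        have : ‖X i j‖ = ‖cm m a b (q 0) i - cm m a b (q 0) j‖ := rfl
        rw [← this] at h1
        linarith
      · have h1 := hX i j hP
        have h2 : cm m a b (q 0) i - cm m a b (q 0) j - X i j = 0 := by simp [X]
        simp only [g, hmot.τ0, zero_smul, add_zero, if_true, sub_zero, h2, norm_zero]
        have : ‖X i j‖ = ‖cm m a b (q 0) i - cm m a b (q 0) j‖ := rfl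
        rw [← this] at h1
        linarith)
    (by
      intro T hT0 hall
      obtain ⟨_, h2, h3⟩ := hstep T hT0
        (fun t h0 h1 i j hP => by
          have := hall t h0 h1 (⟨(i, j), hP⟩, true)
          simp only [g, if_true] at this
          linarith)
        (fun t h0 h1 i j hP => by
          have := hall t h0 h1 (⟨(i, j), hP⟩, false)
          simp only [g, Bool.false_eq_true, if_false] at this
          linarith)
      rintro ⟨⟨⟨i, j⟩, hP⟩, _ | _⟩
      · have := h3 i j hP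
        simp only [g, Bool.false_eq_true, if_false]
        linarith
      · have := h2 i j hP
        simp only [g, if_true]
        linarith)
  intro t ht i j hP
  exact (hstep t ht
    (fun s h0 h1 i j hP => by
      have := hg s h0 (⟨(i, j), hP⟩, true)
      simp only [g, if_true] at this
      linarith)
    (fun s h0 h1 i j hP => by
      have := hg s h0 (⟨(i, j), hP⟩, false)
      simp only [g, Bool.false_eq_true, if_false] at this
      linarith)).1 t ht le_rfl i j hP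


end Pool.Agent.T6.H52.NW
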