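import Pool.Agent.Y516.NW.Stm
import Pool.Agent.Y407.NW.Cyl
import Pool.Agent.Y407.NW.Push
import Pool.Agent.Y275.NW.Boot

/-! MP_70f7a7_an: volumes of the sets of momenta with two thin relative velocities, or with a
small relative velocity. -/

set_option autoImplicit false

open MeasureTheory

namespace Pool.Agent.T6.H52.NW

open Pool.Agent.Y516.NW

/-- Image of Lebesgue measure on a ball under a surjective linear map, general target. -/
theorem push2 {G : Type*} [NormedAddCommGroup G] [NormedSpace ℝ G] [FiniteDimensional ℝ G]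
    [MeasureSpace G] [BorelSpace G] [SecondCountableTopology G]
    [(volume : Measure G).IsAddHaarMeasure]
    (n : ℕ) (V : (Fin n → E3) →ₗ[ℝ] G) (hV : Function.Surjective V) (R : ℝ) :
    ∃ C : ℝ, 0 ≤ C ∧ ∀ A : Set G,
      volume {P : Fin n → E3 | ‖P‖ ≤ R ∧ V P ∈ A} ≤ ENNReal.ofReal C * volume A := by
  obtain ⟨g0, hg0⟩ := LinearMap.exists_rightInverse_of_surjective V (LinearMap.range_eq_top.2 hV)
  obtain ⟨g, hg⟩ : ∃ g : G →L[ℝ] (Fin n → E3), ∀ y, V (g y) = y :=
    ⟨LinearMap.toContinuousLinearMap g0, fun y => by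
      have := LinearMap.congr_fun hg0 y
      simpa using this⟩
  have hVc : Continuous V := LinearMap.continuous_of_finiteDimensional V
  set B : Set G := Metric.closedBall 0 1 with hB
  have hB0 : volume B ≠ 0 := (Metric.measure_closedBall_pos volume 0 one_pos).ne'
  have hBt : volume B ≠ ⊤ := by
    have : ProperSpace G := FiniteDimensional.proper ℝ G
    exact (isCompact_closedBall 0 1).measure_ne_top
  set R' : ℝ := R + ‖g‖ with hR'
  have hRt : volume (Metric.closedBall (0 : Fin n → E3) R') ≠ ⊤ :=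
    (isCompact_closedBall 0 R').measure_ne_top
  refine ⟨(volume (Metric.closedBall (0 : Fin n → E3) R') / volume B).toReal,
    ENNReal.toReal_nonneg, fun A0 => ?_⟩
  rw [ENNReal.ofReal_toReal (ENNReal.div_ne_top hRt hB0)]
  have key : ∀ A : Set G, MeasurableSet A → volume B * volume {P : Fin n → E3 | ‖P‖ ≤ R ∧ V P ∈ A} ≤
      volume (Metric.closedBall (0 : Fin n → E3) R') * volume A := by
    intro A hA
    have h1 : ∀ y ∈ B, volume {P : Fin n → E3 | ‖P‖ ≤ R ∧ V P ∈ A} ≤
        ∫⁻ P in Metric.closedBall (0 : Fin n → E3) R', A.indicator (fun _ => (1 : ENNReal)) (V P + y) := by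
      intro y hy
      have hy1 : ‖g y‖ ≤ ‖g‖ := by
        have h2 := g.le_opNorm y
        have h3 : ‖y‖ ≤ 1 := by simpa [hB] using hy
        have h4 : ‖g‖ * ‖y‖ ≤ ‖g‖ * 1 := mul_le_mul_of_nonneg_left h3 (norm_nonneg _)
        linarith
      rw [← measure_preimage_add_right volume (g y)]
      have hm : MeasurableSet {P : Fin n → E3 | V P + y ∈ A} :=
        (hVc.add continuous_const).measurable hA
      have h5 : ∫⁻ P in Metric.closedBall (0 : Fin n → E3) R',
          A.indicator (fun _ => (1 : ENNReal)) (V P + y) =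
          volume ({P : Fin n → E3 | V P + y ∈ A} ∩ Metric.closedBall (0 : Fin n → E3) R') := by
        have h6 : (fun P : Fin n → E3 => A.indicator (fun _ => (1 : ENNReal)) (V P + y)) =
            {P : Fin n → E3 | V P + y ∈ A}.indicator (fun _ => 1) := by
          funext P
          by_cases h : V P + y ∈ A
          · rw [Set.indicator_of_mem h, Set.indicator_of_mem (by exact h)]
          · rw [Set.indicator_of_notMem h, Set.indicator_of_notMem (by exact h)]
        rw [h6, lintegral_indicator hm, lintegral_one, Measure.restrict_apply_univ,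
          Measure.restrict_apply hm]
      rw [h5]
      apply measure_mono
      intro P hP
      obtain ⟨h7, h8⟩ : ‖P + g y‖ ≤ R ∧ V (P + g y) ∈ A := hP
      refine ⟨?_, ?_⟩
      · change V P + y ∈ A
        rw [map_add, hg] at h8
        exact h8
      · rw [Metric.mem_closedBall, dist_zero_right, hR']
        have h9 := norm_sub_le (P + g y) (g y)
        rw [add_sub_cancel_right] at h9
        linarith
    have hmeas : Measurable (fun z : G × (Fin n → E3) =>
        A.indicator (fun _ => (1 : ENNReal)) (V z.2 + z.1)) := by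
      have h2 : Measurable (fun z : G × (Fin n → E3) => V z.2 + z.1) :=
        ((hVc.comp continuous_snd).add continuous_fst).measurable
      exact (measurable_const.indicator hA).comp h2
    calc volume B * volume {P : Fin n → E3 | ‖P‖ ≤ R ∧ V P ∈ A}
        = ∫⁻ _y in B, volume {P : Fin n → E3 | ‖P‖ ≤ R ∧ V P ∈ A} := by
          rw [setLIntegral_const, mul_comm]
      _ ≤ ∫⁻ y in B, ∫⁻ P in Metric.closedBall (0 : Fin n → E3) R',
            A.indicator (fun _ => (1 : ENNReal)) (V P + y) :=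
          setLIntegral_mono' Metric.isClosed_closedBall.measurableSet h1
      _ = ∫⁻ P in Metric.closedBall (0 : Fin n → E3) R', ∫⁻ y in B,
            A.indicator (fun _ => (1 : ENNReal)) (V P + y) :=
          lintegral_lintegral_swap hmeas.aemeasurable
      _ ≤ ∫⁻ _P in Metric.closedBall (0 : Fin n → E3) R', volume A := by
          apply lintegral_mono
          intro P
          refine (setLIntegral_le_lintegral _ _).trans ?_
          have hm : MeasurableSet {y : G | V P + y ∈ A} :=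
            (continuous_const.add continuous_id).measurable hA
          have h6 : (fun y : G => A.indicator (fun _ => (1 : ENNReal)) (V P + y)) =
              {y : G | V P + y ∈ A}.indicator (fun _ => 1) := by
            funext y
            by_cases h : V P + y ∈ A
            · rw [Set.indicator_of_mem h, Set.indicator_of_mem (by exact h)]
            · rw [Set.indicator_of_notMem h, Set.indicator_of_notMem (by exact h)]
          rw [h6, lintegral_indicator hm, lintegral_one, Measure.restrict_apply_univ]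
          exact (measure_preimage_add volume (V P) A).le
      _ = _ := by rw [setLIntegral_const, mul_comm]
  have h2 := key (toMeasurable volume A0) (measurableSet_toMeasurable _ _)
  rw [measure_toMeasurable] at h2
  have h3 : volume {P : Fin n → E3 | ‖P‖ ≤ R ∧ V P ∈ A0} ≤
      volume {P : Fin n → E3 | ‖P‖ ≤ R ∧ V P ∈ toMeasurable volume A0} :=
    measure_mono (fun P hP => ⟨hP.1, subset_toMeasurable _ _ hP.2⟩)
  refine h3.trans ?_
  rw [ENNReal.div_eq_inv_mul, mul_assoc]
  exact (ENNReal.mul_le_iff_le_inv hB0 hBt).1 h2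

/-- small relative velocity -/
theorem slow {n : ℕ} (V : (Fin n → E3) →ₗ[ℝ] E3) (hV : Function.Surjective V) (R : ℝ) :
    ∃ C : ℝ, 0 ≤ C ∧ ∀ s : ℝ, 0 ≤ s →
      volume {P : Fin n → E3 | ‖P‖ ≤ R ∧ ‖V P‖ < s} ≤ ENNReal.ofReal (C * s ^ 3) := by
  obtain ⟨C1, hC1, h1⟩ := Pool.Agent.Y407.NW.push n V hV R
  obtain ⟨β, hβ⟩ : ∃ β, β = volume (Metric.ball (0 : E3) 1) := ⟨_, rfl⟩
  have hβt : β ≠ ⊤ := by rw [hβ]; exact measure_ball_lt_top.ne
  have hfr : Module.finrank ℝ E3 = 3 := finrank_euclideanSpace_fin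
  refine ⟨C1 * β.toReal, mul_nonneg hC1 ENNReal.toReal_nonneg, fun s hs => ?_⟩
  have h2 := h1 (Metric.ball 0 s)
  refine (measure_mono ?_).trans (h2.trans ?_)
  · rintro P ⟨hP1, hP2⟩
    exact ⟨hP1, by rw [mem_ball_zero_iff]; exact hP2⟩
  · rw [Measure.addHaar_ball _ _ hs, hfr, ← hβ, ← ENNReal.ofReal_toReal hβt,
      ← ENNReal.ofReal_mul (by positivity), ← ENNReal.ofReal_mul hC1,
      ENNReal.toReal_ofReal ENNReal.toReal_nonneg]
    refine ENNReal.ofReal_le_ofReal (le_of_eq ?_)
    ring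

/-- two thin relative velocities -/
theorem slab2 {n : ℕ} (V W : (Fin n → E3) →ₗ[ℝ] E3) (hV : Function.Surjective (V.prod W)) (R : ℝ)
    (hR : 0 < R) :
    ∃ C : ℝ, 0 ≤ C ∧ ∀ X Y : E3, X ≠ 0 → Y ≠ 0 → ∀ t : ℝ, 0 ≤ t →
      volume {P : Fin n → E3 | ‖P‖ ≤ R ∧ gr X (V P) < t * ‖X‖ ^ 2 ∧ gr Y (W P) < t * ‖Y‖ ^ 2} ≤
        ENNReal.ofReal (C * t ^ 2) := by
  have hHaar : (volume : Measure (E3 × E3)).IsAddHaarMeasure := by
    rw [Measure.volume_eq_prod]; infer_instance
  obtain ⟨C1, hC1, h1⟩ := push2 n (V.prod W) hV R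
  set L := LinearMap.toContinuousLinearMap V with hL
  set L' := LinearMap.toContinuousLinearMap W with hL'
  obtain ⟨C2, hC2, h2⟩ := Pool.Agent.Y407.NW.cyl (‖L‖ * R + 1) (by positivity)
  obtain ⟨C3, hC3, h3⟩ := Pool.Agent.Y407.NW.cyl (‖L'‖ * R + 1) (by positivity)
  refine ⟨C1 * (C2 * C3), mul_nonneg hC1 (mul_nonneg hC2 hC3), fun X Y hX hY t ht => ?_⟩
  have h4 := h1 ({v : E3 | ‖v‖ ≤ ‖L‖ * R + 1 ∧ gr X v < t * ‖X‖ ^ 2} ×ˢ
    {v : E3 | ‖v‖ ≤ ‖L'‖ * R + 1 ∧ gr Y v < t * ‖Y‖ ^ 2})
  refine (measure_mono ?_).trans (h4.trans ?_)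
  · rintro P ⟨hP1, hP2, hP3⟩
    refine ⟨hP1, ⟨?_, hP2⟩, ⟨?_, hP3⟩⟩
    · have h4 : ‖L P‖ ≤ ‖L‖ * ‖P‖ := L.le_opNorm P
      have h5 : ‖L‖ * ‖P‖ ≤ ‖L‖ * R := by gcongr
      have h6 : L P = V P := rfl
      rw [h6] at h4
      show ‖V P‖ ≤ _
      linarith
    · have h4 : ‖L' P‖ ≤ ‖L'‖ * ‖P‖ := L'.le_opNorm P
      have h5 : ‖L'‖ * ‖P‖ ≤ ‖L'‖ * R := by gcongr
      have h6 : L' P = W P := rfl
      rw [h6] at h4
      show ‖W P‖ ≤ _
      linarith
  · have e0 : C1 * (C2 * C3) * t ^ 2 = C1 * ((C2 * t) * (C3 * t)) := by ring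
    rw [e0, ENNReal.ofReal_mul hC1, ENNReal.ofReal_mul (by positivity : 0 ≤ C2 * t)]
    rw [Measure.volume_eq_prod, Measure.prod_prod]
    gcongr
    · exact h2 X hX t ht
    · exact h3 Y hY t ht

/-- velocities of clusters from arbitrary prescribed velocities -/
theorem vel_of {n : ℕ} (m : Fin (n + 1) → ℝ) (hm : ∀ i, 0 < m i) (a b : Fin (n + 1))
    (u : Cfg (n + 1)) (hu : u a = u b) :
    ∃ P : Fin n → E3, ∀ i j, cm m a b (fun k => (m k)⁻¹ • mom P k) i
      - cm m a b (fun k => (m k)⁻¹ • mom P k) j = u i - u j := by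
  obtain ⟨c, hc⟩ : ∃ c : E3, c = (∑ i, m i)⁻¹ • ∑ i, m i • u i := ⟨_, rfl⟩
  obtain ⟨p, hp⟩ : ∃ p : Cfg (n + 1), p = fun i => m i • (u i - c) := ⟨_, rfl⟩
  have hM : 0 < ∑ i, m i := Finset.sum_pos (fun i _ => hm i) ⟨0, Finset.mem_univ _⟩
  have hsum : ∑ k, p k = 0 := by
    rw [hp]
    simp only [smul_sub, Finset.sum_sub_distrib]
    rw [← Finset.sum_smul, hc, smul_smul, mul_inv_cancel₀ hM.ne', one_smul, sub_self]
  refine ⟨fun k => p k.castSucc, fun i j => ?_⟩
  rw [Pool.Agent.Y275.NW.mom_of_sum p hsum]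
  have h1 : (fun k => (m k)⁻¹ • p k) = fun k => u k - c := by
    funext k
    rw [hp]
    simp only [smul_smul]
    rw [inv_mul_cancel₀ (hm k).ne', one_smul]
  rw [h1]
  have h2 : ∀ i, cm m a b (fun k => u k - c) i = u i - c := by
    intro i
    unfold cm
    have hs : 0 < m a + m b := add_pos (hm a) (hm b)
    split_ifs with h
    · have h3 : u i = u a := by rcases h with h | h; · rw [h]
                                · rw [h, hu]
      show (m a + m b)⁻¹ • (m a • (u a - c) + m b • (u b - c)) = u i - c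
      rw [← hu, ← add_smul, smul_smul, inv_mul_cancel₀ hs.ne', one_smul, h3]
    · rfl
  rw [h2, h2]
  abel

/-- the cluster of a body -/
def cl {N : ℕ} (b a i : Fin N) : Fin N := if i = b then a else i

theorem cl_eq {N : ℕ} {a b i j : Fin N} (h : P2 a b i j) : cl b a i ≠ cl b a j := by
  obtain ⟨h1, h2, h3⟩ := h
  unfold cl
  split_ifs with hi hj hj
  · exact absurd (hi.trans hj.symm) h1
  · intro h4
    exact h3 ⟨hi, h4.symm⟩
  · intro h4
    exact h2 ⟨h4, hj⟩
  · exact h1

/-- different pairs of clusters -/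
def Diff {N : ℕ} (a b i j k l : Fin N) : Prop :=
  ¬(cl b a i = cl b a k ∧ cl b a j = cl b a l) ∧ ¬(cl b a i = cl b a l ∧ cl b a j = cl b a k)

theorem surj2 {n : ℕ} (m : Fin (n + 1) → ℝ) (hm : ∀ i, 0 < m i) (a b : Fin (n + 1))
    (i j k l : Fin (n + 1)) (hij : P2 a b i j) (hkl : P2 a b k l)
    (hd : Diff a b i j k l) (y z : E3) :
    ∃ P : Fin n → E3, cm m a b (fun k => (m k)⁻¹ • mom P k) i
      - cm m a b (fun k => (m k)⁻¹ • mom P k) j = y ∧
      cm m a b (fun k => (m k)⁻¹ • mom P k) k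
      - cm m a b (fun k => (m k)⁻¹ • mom P k) l = z := by
  have hij' := cl_eq hij
  have hkl' := cl_eq hkl
  have main : ∀ k l : Fin (n + 1), cl b a k ≠ cl b a l → ∀ z : E3,
      cl b a k ≠ cl b a i → cl b a k ≠ cl b a j →
      ∃ P : Fin n → E3, cm m a b (fun k => (m k)⁻¹ • mom P k) i
      - cm m a b (fun k => (m k)⁻¹ • mom P k) j = y ∧
      cm m a b (fun k => (m k)⁻¹ • mom P k) k
      - cm m a b (fun k => (m k)⁻¹ • mom P k) l = z := by
    intro k l hkl z h1 h2
    obtain ⟨f, hf⟩ : ∃ f : Fin (n + 1) → E3, f = fun c => if c = cl b a i then y else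
      if c = cl b a k then (if cl b a l = cl b a i then y else 0) + z else 0 := ⟨_, rfl⟩
    obtain ⟨P, hP⟩ := vel_of m hm a b (fun x => f (cl b a x)) (by
      show f (cl b a a) = f (cl b a b)
      congr 1
      unfold cl
      split_ifs <;> simp_all)
    have hfi : f (cl b a i) = y := by rw [hf]; simp
    have hfj : f (cl b a j) = 0 := by
      rw [hf]
      show (if cl b a j = cl b a i then y else
        if cl b a j = cl b a k then (if cl b a l = cl b a i then y else 0) + z else 0) = 0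
      rw [if_neg (fun h => hij' h.symm), if_neg (fun h => h2 h.symm)]
    have hfk : f (cl b a k) = (if cl b a l = cl b a i then y else 0) + z := by
      rw [hf]
      show (if cl b a k = cl b a i then y else
        if cl b a k = cl b a k then (if cl b a l = cl b a i then y else 0) + z else 0) = _
      rw [if_neg h1, if_pos rfl]
    have hfl : f (cl b a l) = (if cl b a l = cl b a i then y else 0) := by
      rw [hf]
      show (if cl b a l = cl b a i then y else
        if cl b a l = cl b a k then (if cl b a l = cl b a i then y else 0) + z else 0) = _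
      by_cases h3 : cl b a l = cl b a i
      · rw [if_pos h3, if_pos h3]
      · rw [if_neg h3, if_neg (fun h => hkl h.symm), if_neg h3]
    refine ⟨P, ?_, ?_⟩
    · rw [hP i j, hfi, hfj, sub_zero]
    · rw [hP k l, hfk, hfl]; abel
  by_cases h1 : cl b a k ≠ cl b a i ∧ cl b a k ≠ cl b a j
  · exact main k l hkl' z h1.1 h1.2
  · have h2 : cl b a l ≠ cl b a i ∧ cl b a l ≠ cl b a j := by
      obtain ⟨hd1, hd2⟩ := hd
      constructor
      · intro h3
        refine h1 ⟨fun h4 => hkl' (h4.trans h3.symm), fun h4 => hd2 ⟨h3.symm, h4.symm⟩⟩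
      · intro h3
        refine h1 ⟨fun h4 => hd1 ⟨h4.symm, h3.symm⟩, fun h4 => hkl' (h4.trans h3.symm)⟩
    obtain ⟨P, hP1, hP2⟩ := main l k (Ne.symm hkl') (-z) h2.1 h2.2
    refine ⟨P, hP1, ?_⟩
    rw [← neg_inj, ← hP2]
    abel

/-- the same pair of clusters: the same relative vectors up to a common sign -/
theorem same {N : ℕ} (m : Fin N → ℝ) (a b i j k l : Fin N) (h : ¬ Diff a b i j k l)
    (u v : Cfg N) :
    (cm m a b u k - cm m a b u l = cm m a b u i - cm m a b u j ∧
      cm m a b v k - cm m a b v l = cm m a b v i - cm m a b v j) ∨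
    (cm m a b u k - cm m a b u l = -(cm m a b u i - cm m a b u j) ∧
      cm m a b v k - cm m a b v l = -(cm m a b v i - cm m a b v j)) := by
  have h0 : ∀ (u : Cfg N) (x y : Fin N), cl b a x = cl b a y → cm m a b u x = cm m a b u y := by
    intro u x y hxy
    have h1 : ∀ x, cm m a b u x = cm m a b u (cl b a x) := by
      intro x
      unfold cl
      split_ifs with hx
      · rw [hx]; unfold cm; simp
      · rfl
    rw [h1 x, h1 y, hxy]
  unfold Diff at h
  by_cases h1 : cl b a i = cl b a k ∧ cl b a j = cl b a l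
  · left
    rw [h0 u i k h1.1, h0 u j l h1.2, h0 v i k h1.1, h0 v j l h1.2]
    exact ⟨rfl, rfl⟩
  · have h2 : cl b a i = cl b a l ∧ cl b a j = cl b a k := by
      by_contra h2
      exact h ⟨h1, h2⟩
    right
    rw [h0 u i l h2.1, h0 u j k h2.2, h0 v i l h2.1, h0 v j k h2.2]
    constructor <;> abel

end Pool.Agent.T6.H52.NW
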