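import Pool.Agent.T6.H52.NW.Wand
import Pool.Agent.T6.H52.NW.Meas
import Pool.Agent.Y516.NW.Fin

set_option autoImplicit false

/-! MP_70f7a7_an: nonwandering points with a tight pair, and the proportion of nonwandering
momenta. -/

namespace Pool.Agent.T6.H52.NW

open MeasureTheory Set Pool.Agent.Y516.NW

/-- the two directions of time -/
theorem pointwise {n : ℕ} (hn : 2 ≤ n) (m : Fin (n + 1) → ℝ) (M μ : ℝ) (hμ : 0 < μ)
    (hm : ∀ i, μ ≤ m i) (hM : ∑ i, m i ≤ M) (E : ℝ) (hE : E ≤ 0)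
    (ψ : Cfg (n + 1) × Cfg (n + 1) → ℝ)
    (φ : ℝ → Cfg (n + 1) × Cfg (n + 1) → Cfg (n + 1) × Cfg (n + 1)) (hφ : IsFl m E ψ φ)
    (x : Cfg (n + 1) × Cfg (n + 1)) (hx : x ∈ Surf m E) (hNW : NonW (Surf m E) φ x)
    (a b : Fin (n + 1)) (hab : a ≠ b) (w δ : ℝ) (hw : 0 < w) (hδ : 0 < δ)
    (hC : 16000 * (M + M ^ 2 / μ) ≤ w ^ 2 * δ)
    (hX : ∀ i j, P2 a b i j → δ ≤ ‖x.1 i - x.1 j‖) (hr : ‖x.1 a - x.1 b‖ ≤ δ / 128) :
    (∃ i j, P2 a b i j ∧ ‖cm m a b (vel m x) i - cm m a b (vel m x) j‖ < w) ∨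
    ∃ i j k l, P2 a b i j ∧ P2 a b k l ∧ Diff a b i j k l ∧
      gr (cm m a b x.1 i - cm m a b x.1 j) (cm m a b (vel m x) i - cm m a b (vel m x) j) <
        w ^ 2 * ‖cm m a b x.1 i - cm m a b x.1 j‖ ^ 2 ∧
      inner ℝ (cm m a b x.1 i - cm m a b x.1 j) (cm m a b (vel m x) i - cm m a b (vel m x) j) < 0 ∧
      gr (cm m a b x.1 k - cm m a b x.1 l) (cm m a b (vel m x) k - cm m a b (vel m x) l) <
        w ^ 2 * ‖cm m a b x.1 k - cm m a b x.1 l‖ ^ 2 ∧
      0 < inner ℝ (cm m a b x.1 k - cm m a b x.1 l)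
        (cm m a b (vel m x) k - cm m a b (vel m x) l) := by
  have hmpos : ∀ i, 0 < m i := fun i => hμ.trans_le (hm i)
  by_contra hcon
  rw [not_or] at hcon
  obtain ⟨hslow, htwo⟩ := hcon
  have hfast : ∀ i j, P2 a b i j → w ≤ ‖cm m a b (vel m x) i - cm m a b (vel m x) j‖ := by
    intro i j hP
    by_contra h
    exact hslow ⟨i, j, hP, not_le.mp h⟩
  have hXge : ∀ i j, P2 a b i j → δ / 2 ≤ ‖cm m a b x.1 i - cm m a b x.1 j‖ := by
    intro i j hP
    have e3 := near m hmpos a b x.1 i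
    have e4 := near m hmpos a b x.1 j
    have e5 := hX i j hP
    have e6 : ‖x.1 i - x.1 j‖ ≤ ‖x.1 i - cm m a b x.1 i‖ + ‖cm m a b x.1 i - cm m a b x.1 j‖
        + ‖x.1 j - cm m a b x.1 j‖ := by
      have : x.1 i - x.1 j = (x.1 i - cm m a b x.1 i) + (cm m a b x.1 i - cm m a b x.1 j)
          + -(x.1 j - cm m a b x.1 j) := by abel
      calc ‖x.1 i - x.1 j‖ = ‖(x.1 i - cm m a b x.1 i) + (cm m a b x.1 i - cm m a b x.1 j)
          + -(x.1 j - cm m a b x.1 j)‖ := by rw [← this]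
        _ ≤ ‖(x.1 i - cm m a b x.1 i) + (cm m a b x.1 i - cm m a b x.1 j)‖
          + ‖-(x.1 j - cm m a b x.1 j)‖ := norm_add_le _ _
        _ ≤ _ := by rw [norm_neg]; gcongr; exact norm_add_le _ _
    linarith
  obtain ⟨c, hac⟩ := exists_P2 hn a b
  have hcm : ∀ (σ : ℝ) (i j : Fin (n + 1)), cm m a b (vs m σ x) i - cm m a b (vs m σ x) j =
      σ • (cm m a b (vel m x) i - cm m a b (vel m x) j) := by
    intro σ i j
    unfold vs
    rw [cm_smul, cm_smul, smul_sub]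
  -- each direction of time has a bad pair
  have hbad : ∀ σ : ℝ, (σ = 1 ∨ σ = -1) → ∃ i j, P2 a b i j ∧
      gr (cm m a b x.1 i - cm m a b x.1 j) (cm m a b (vel m x) i - cm m a b (vel m x) j) <
        w ^ 2 * ‖cm m a b x.1 i - cm m a b x.1 j‖ ^ 2 ∧
      σ * inner ℝ (cm m a b x.1 i - cm m a b x.1 j)
        (cm m a b (vel m x) i - cm m a b (vel m x) j) < 0 := by
    intro σ hσ
    have hσσ : σ ^ 2 = 1 := by rcases hσ with rfl | rfl <;> norm_num
    have hσn : ‖σ‖ = 1 := by rcases hσ with rfl | rfl <;> norm_num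
    by_contra hno
    refine wander2 m M μ hμ hm hM a b hab E hE ψ φ hφ σ hσ x hx a c hac w (δ / 2) hw
      (by positivity) (by nlinarith) hXge ?_ (by linarith) hNW
    intro i j hP
    by_contra hok
    refine hno ⟨i, j, hP, ?_⟩
    rw [hcm] at hok
    unfold Ok at hok
    rw [not_or] at hok
    obtain ⟨h1, h2⟩ := hok
    rw [gr_smul, hσσ, one_mul, not_le] at h1
    refine ⟨h1, ?_⟩
    rw [inner_smul_right, norm_smul, hσn, one_mul] at h2
    have h3 : ¬ 0 < σ * inner ℝ (cm m a b x.1 i - cm m a b x.1 j)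
        (cm m a b (vel m x) i - cm m a b (vel m x) j) := fun h => h2 ⟨h, hfast i j hP⟩
    refine lt_of_le_of_ne (not_lt.mp h3) ?_
    intro h4
    have h5 : inner ℝ (cm m a b x.1 i - cm m a b x.1 j)
        (cm m a b (vel m x) i - cm m a b (vel m x) j) = 0 := by
      have hσ0 : σ ≠ 0 := by rcases hσ with rfl | rfl <;> norm_num
      exact (mul_eq_zero.mp h4).resolve_left hσ0
    unfold gr at h1
    rw [h5] at h1
    have h6 := hfast i j hP
    have h7 : w ^ 2 ≤ ‖cm m a b (vel m x) i - cm m a b (vel m x) j‖ ^ 2 := by gcongr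
    have h8 : 0 ≤ ‖cm m a b x.1 i - cm m a b x.1 j‖ ^ 2 := by positivity
    nlinarith
  obtain ⟨i, j, hij, h1, h2⟩ := hbad 1 (Or.inl rfl)
  obtain ⟨k, l, hkl, h3, h4⟩ := hbad (-1) (Or.inr rfl)
  rw [one_mul] at h2
  rw [neg_one_mul, neg_lt_zero] at h4
  refine htwo ⟨i, j, k, l, hij, hkl, ?_, h1, h2, h3, h4⟩
  by_contra hD
  rcases same m a b i j k l hD x.1 (vel m x) with ⟨e1, e2⟩ | ⟨e1, e2⟩
  · rw [e1, e2] at h4; linarith
  · rw [e1, e2, inner_neg_neg] at h4; linarith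

theorem rp {x : ℝ} (hx : 0 ≤ x) : x ^ (3 / 2 : ℝ) = (Real.sqrt x) ^ 3 := by
  rw [Real.sqrt_eq_rpow, ← Real.rpow_natCast, ← Real.rpow_mul hx]
  norm_num

theorem prop2 (n : ℕ) (hn : 2 ≤ n) (m : Fin (n + 1) → ℝ) (hm : ∀ i, 0 < m i) :
    ∃ C : ℝ, 0 < C ∧ ∀ E : ℝ, E ≤ 0 →
      ∀ (ψ : Cfg (n + 1) × Cfg (n + 1) → ℝ)
        (φ : ℝ → Cfg (n + 1) × Cfg (n + 1) → Cfg (n + 1) × Cfg (n + 1)), IsFl m E ψ φ →
      ∀ q : Cfg (n + 1), (∀ i j, i ≠ j → q i ≠ q j) → ∑ i, m i • q i = 0 →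
      ∀ a b : Fin (n + 1), a ≠ b → ∀ δ : ℝ, 0 < δ → (∀ i j, P2 a b i j → δ ≤ ‖q i - q j‖) →
      0 < pot m q + E →
      volume {P : Fin n → E3 | kin m (mom P) ≤ 1 ∧ NonW (Surf m E) φ
          (q, Real.sqrt ((pot m q + E) / kin m (mom P)) • mom P)} ≤
        ENNReal.ofReal ((C / (δ * (pot m q + E))) ^ (3 / 2 : ℝ)) *
          volume {P : Fin n → E3 | kin m (mom P) ≤ 1} := by
  obtain ⟨μ, hμ, hμm⟩ : ∃ μ : ℝ, 0 < μ ∧ ∀ i, μ ≤ m i := by
    obtain ⟨μi, _, hμi⟩ := Finset.exists_min_image Finset.univ m ⟨0, Finset.mem_univ _⟩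
    exact ⟨m μi, hm μi, fun i => hμi i (Finset.mem_univ _)⟩
  obtain ⟨M, hMdef⟩ : ∃ M : ℝ, M = ∑ i, m i := ⟨_, rfl⟩
  have hM : 0 < M := by
    rw [hMdef]; exact Finset.sum_pos (fun i _ => hm i) ⟨0, Finset.mem_univ _⟩
  obtain ⟨R, hR, hRb, hvol⟩ := Pool.Agent.Y317.NW.ball n m hm
  -- the linear maps
  have hlin : ∀ a b i j : Fin (n + 1), a ≠ b → P2 a b i j → ∃ V : (Fin n → E3) →ₗ[ℝ] E3,
      Function.Surjective V ∧ ∀ P, V P = cm m a b (fun k => (m k)⁻¹ • mom P k) i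
        - cm m a b (fun k => (m k)⁻¹ • mom P k) j := fun a b i j hab hP =>
    Pool.Agent.Y275.NW.surj n m hm a b hab i j hP
  -- constants of the slow sets
  have hch : ∀ a b i j : Fin (n + 1), ∃ C : ℝ, 0 ≤ C ∧ (a ≠ b → P2 a b i j →
      ∀ t : ℝ, 0 ≤ t →
        volume {P : Fin n → E3 | ‖P‖ ≤ R ∧ ‖cm m a b (fun k => (m k)⁻¹ • mom P k) i
          - cm m a b (fun k => (m k)⁻¹ • mom P k) j‖ < t}
          ≤ ENNReal.ofReal (C * t ^ 3)) := by
    intro a b i j
    by_cases hab : a ≠ b ∧ P2 a b i j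
    · obtain ⟨V, hV, hVe⟩ := hlin a b i j hab.1 hab.2
      obtain ⟨C, hC, h⟩ := slow V hV R
      refine ⟨C, hC, fun _ _ t ht => ?_⟩
      have := h t ht
      simpa only [hVe] using this
    · exact ⟨0, le_rfl, fun h1 h2 => absurd ⟨h1, h2⟩ hab⟩
  choose Cf hCf0 hCf using hch
  have hch2 : ∀ a b i j k l : Fin (n + 1), ∃ C : ℝ, 0 ≤ C ∧ (a ≠ b → P2 a b i j →
      P2 a b k l → Diff a b i j k l →
      ∀ X Y : E3, X ≠ 0 → Y ≠ 0 → ∀ t : ℝ, 0 ≤ t →
        volume {P : Fin n → E3 | ‖P‖ ≤ R ∧ gr X (cm m a b (fun k => (m k)⁻¹ • mom P k) i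
          - cm m a b (fun k => (m k)⁻¹ • mom P k) j) < t * ‖X‖ ^ 2 ∧
          gr Y (cm m a b (fun k => (m k)⁻¹ • mom P k) k
          - cm m a b (fun k => (m k)⁻¹ • mom P k) l) < t * ‖Y‖ ^ 2}
          ≤ ENNReal.ofReal (C * t ^ 2)) := by
    intro a b i j k l
    by_cases hab : a ≠ b ∧ P2 a b i j ∧ P2 a b k l ∧ Diff a b i j k l
    · obtain ⟨V, _, hVe⟩ := hlin a b i j hab.1 hab.2.1
      obtain ⟨W, _, hWe⟩ := hlin a b k l hab.1 hab.2.2.1
      have hVW : Function.Surjective (V.prod W) := by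
        rintro ⟨y, z⟩
        obtain ⟨P, hP1, hP2⟩ := surj2 m hm a b i j k l hab.2.1 hab.2.2.1 hab.2.2.2 y z
        refine ⟨P, ?_⟩
        rw [LinearMap.prod_apply]
        show (V P, W P) = (y, z)
        rw [hVe, hWe, hP1, hP2]
      obtain ⟨C, hC, h⟩ := slab2 V W hVW R hR
      refine ⟨C, hC, fun _ _ _ _ X Y hX hY t ht => ?_⟩
      have := h X Y hX hY t ht
      simpa only [hVe, hWe] using this
    · exact ⟨0, le_rfl, fun h1 h2 h3 h4 => absurd ⟨h1, h2, h3, h4⟩ hab⟩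
  choose Cg hCg0 hCg using hch2
  obtain ⟨Cs, hCs0, hCsle⟩ : ∃ Cs : ℝ, 0 ≤ Cs ∧ ∀ a b,
      ∑ i, ∑ j, Cf a b i j + ∑ i, ∑ j, ∑ k, ∑ l, Cg a b i j k l ≤ Cs := by
    have h0 : ∀ a b, 0 ≤ ∑ i, ∑ j, Cf a b i j + ∑ i, ∑ j, ∑ k, ∑ l, Cg a b i j k l :=
      fun a b => add_nonneg (Finset.sum_nonneg fun i _ => Finset.sum_nonneg fun j _ =>
        hCf0 a b i j) (Finset.sum_nonneg fun i _ => Finset.sum_nonneg fun j _ =>
        Finset.sum_nonneg fun k _ => Finset.sum_nonneg fun l _ => hCg0 a b i j k l)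
    refine ⟨∑ a, ∑ b, (∑ i, ∑ j, Cf a b i j + ∑ i, ∑ j, ∑ k, ∑ l, Cg a b i j k l),
      Finset.sum_nonneg fun a _ => Finset.sum_nonneg fun b _ => h0 a b, fun a b => ?_⟩
    exact (Finset.single_le_sum (f := fun b' => ∑ i, ∑ j, Cf a b' i j +
        ∑ i, ∑ j, ∑ k, ∑ l, Cg a b' i j k l) (fun b' _ => h0 a b')
        (Finset.mem_univ b)).trans
      (Finset.single_le_sum (f := fun a' => ∑ b', (∑ i, ∑ j, Cf a' b' i j +
        ∑ i, ∑ j, ∑ k, ∑ l, Cg a' b' i j k l))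
        (fun a' _ => Finset.sum_nonneg fun b' _ => h0 a' b') (Finset.mem_univ a))
  obtain ⟨v0, hv0pos, hv0le⟩ : ∃ v0 : ℝ, 0 < v0 ∧
      ENNReal.ofReal v0 ≤ volume {P : Fin n → E3 | kin m (mom P) ≤ 1} := by
    have hmin : min (volume {P : Fin n → E3 | kin m (mom P) ≤ 1}) 1 ≠ ⊤ :=
      ne_top_of_le_ne_top ENNReal.one_ne_top (min_le_right _ _)
    refine ⟨(min (volume {P : Fin n → E3 | kin m (mom P) ≤ 1}) 1).toReal, ?_, ?_⟩
    · exact ENNReal.toReal_pos (lt_min hvol one_pos).ne' hmin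
    · rw [ENNReal.ofReal_toReal hmin]
      exact min_le_left _ _
  obtain ⟨A, hA⟩ : ∃ A : ℝ, A = M + M ^ 2 / μ := ⟨_, rfl⟩
  have hApos : 0 < A := by
    rw [hA]; have : 0 ≤ M ^ 2 / μ := div_nonneg (sq_nonneg _) hμ.le
    linarith
  obtain ⟨C, hC⟩ : ∃ C : ℝ, C = 16000 * A * (1 + Cs / v0) + 256 * M ^ 2 := ⟨_, rfl⟩
  have hCsv : 0 ≤ Cs / v0 := div_nonneg hCs0 hv0pos.le
  have hC1 : 16000 * A * (1 + Cs / v0) ≤ C := by
    rw [hC]; have : 0 ≤ 256 * M ^ 2 := mul_nonneg (by norm_num) (sq_nonneg _)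
    linarith
  have hC2 : 16000 * A ≤ C := by
    refine le_trans ?_ hC1
    nlinarith
  have hC3 : 256 * M ^ 2 ≤ C := by
    rw [hC]
    have : 0 ≤ 16000 * A * (1 + Cs / v0) := by positivity
    linarith
  have hCpos : 0 < C := lt_of_lt_of_le (by positivity) hC2
  refine ⟨C, hCpos, ?_⟩
  intro E hE ψ φ hφ q hq hcen a b hab δ hδ hδq hK
  obtain ⟨K, hKdef⟩ : ∃ K : ℝ, K = pot m q + E := ⟨_, rfl⟩
  rw [← hKdef] at hK ⊢
  have hCK : 0 ≤ C / (δ * K) := by positivity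
  rw [rp hCK]
  by_cases hbig : δ * K < C
  · -- trivial bound
    refine (measure_mono (fun P hP => hP.1)).trans ?_
    have h1 : 1 ≤ C / (δ * K) := by
      rw [le_div_iff₀ (by positivity)]
      linarith
    have h2 : 1 ≤ (Real.sqrt (C / (δ * K))) ^ 3 := by
      have : 1 ≤ Real.sqrt (C / (δ * K)) := by
        rw [← Real.sqrt_one]; exact Real.sqrt_le_sqrt h1
      exact one_le_pow₀ this
    calc volume {P : Fin n → E3 | kin m (mom P) ≤ 1}
        = 1 * volume {P : Fin n → E3 | kin m (mom P) ≤ 1} := (one_mul _).symm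
      _ ≤ _ := by
          gcongr
          rw [← ENNReal.ofReal_one]
          exact ENNReal.ofReal_le_ofReal h2
  push Not at hbig
  -- the tight pair
  have hab0 : 0 < ‖q a - q b‖ := norm_pos_iff.mpr (sub_ne_zero.mpr (hq a b hab))
  have hr : ‖q a - q b‖ ≤ δ / 128 := by
    have h1 := Pool.Agent.Y421.NW.pot (q := q) hm hab (d := 4 * δ) (by positivity)
      (fun i j h => by have := hδq i j h; linarith)
    have h2 : pot m q = ∑ i, ∑ j, m i * m j / ‖q i - q j‖ / 2 := rfl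
    rw [← h2, ← hMdef] at h1
    have h3 : 2 * M ^ 2 / (4 * δ) ≤ K / 512 := by
      rw [div_le_div_iff₀ (by positivity) (by norm_num)]
      nlinarith
    have h4 : K / 2 ≤ m a * m b / ‖q a - q b‖ := by
      have : K ≤ pot m q := by linarith
      linarith
    rw [le_div_iff₀ hab0] at h4
    have h5 : m a * m b ≤ M ^ 2 := by
      have e1 : m a ≤ M := hMdef ▸ Finset.single_le_sum (fun i _ => (hm i).le) (Finset.mem_univ a)
      have e2 : m b ≤ M := hMdef ▸ Finset.single_le_sum (fun i _ => (hm i).le) (Finset.mem_univ b)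
      have := mul_le_mul e1 e2 (hm b).le hM.le
      nlinarith
    have h6 : K * ‖q a - q b‖ * 128 ≤ K * δ := by nlinarith
    have h7 : K * (‖q a - q b‖ * 128) ≤ K * δ := by linarith
    have := le_of_mul_le_mul_left h7 hK
    linarith
  obtain ⟨w2, hw2⟩ : ∃ w2 : ℝ, w2 = 16000 * A / δ := ⟨_, rfl⟩
  have hw2pos : 0 < w2 := by rw [hw2]; positivity
  obtain ⟨t, ht⟩ : ∃ t : ℝ, t = w2 / K := ⟨_, rfl⟩
  have htpos : 0 < t := by rw [ht]; positivity
  have hKt : w2 = K * t := by rw [ht]; field_simp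
  have hXne : ∀ i j, P2 a b i j → cm m a b q i - cm m a b q j ≠ 0 := by
    intro i j hP
    have e3 := near m hm a b q i
    have e4 := near m hm a b q j
    have e5 := hδq i j hP
    intro h0
    have e6 : ‖q i - q j‖ ≤ ‖q i - cm m a b q i‖ + ‖q j - cm m a b q j‖ := by
      have : q i - q j = (q i - cm m a b q i) - (q j - cm m a b q j) := by
        rw [sub_eq_zero] at h0
        rw [h0]; abel
      rw [this]
      exact norm_sub_le _ _
    linarith
  -- inclusion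
  have hincl : {P : Fin n → E3 | kin m (mom P) ≤ 1 ∧ NonW (Surf m E) φ
      (q, Real.sqrt (K / kin m (mom P)) • mom P)} ⊆
      (⋃ i : Fin (n + 1), ⋃ j : Fin (n + 1), {P | P2 a b i j ∧ ‖P‖ ≤ R ∧
        ‖cm m a b (fun k => (m k)⁻¹ • mom P k) i
          - cm m a b (fun k => (m k)⁻¹ • mom P k) j‖ < Real.sqrt t}) ∪
      (⋃ i : Fin (n + 1), ⋃ j : Fin (n + 1), ⋃ k : Fin (n + 1), ⋃ l : Fin (n + 1),
        {P | (P2 a b i j ∧ P2 a b k l ∧ Diff a b i j k l) ∧ ‖P‖ ≤ R ∧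
        gr (cm m a b q i - cm m a b q j) (cm m a b (fun k => (m k)⁻¹ • mom P k) i
          - cm m a b (fun k => (m k)⁻¹ • mom P k) j) <
          t * ‖cm m a b q i - cm m a b q j‖ ^ 2 ∧
        gr (cm m a b q k - cm m a b q l) (cm m a b (fun k => (m k)⁻¹ • mom P k) k
          - cm m a b (fun k => (m k)⁻¹ • mom P k) l) <
          t * ‖cm m a b q k - cm m a b q l‖ ^ 2}) := by
    rintro P ⟨hP1, hP2⟩
    obtain ⟨c, hac⟩ := exists_P2 hn a b
    have hkin0 : 0 ≤ kin m (mom P) := Finset.sum_nonneg fun i _ => by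
      have := hm i; positivity
    rcases hkin0.eq_or_lt with h0 | hkin
    · have hz : ∀ i, mom P i = 0 := by
        intro i
        have h1 := (Finset.sum_eq_zero_iff_of_nonneg (fun i _ => by
          have := hm i; positivity)).mp h0.symm i (Finset.mem_univ i)
        have h2 : ‖mom P i‖ ^ 2 = 0 := by
          rcases div_eq_zero_iff.mp h1 with h | h
          · exact h
          · have := hm i; linarith
        exact norm_eq_zero.mp (pow_eq_zero_iff (by norm_num) |>.mp h2)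
      left
      simp only [mem_iUnion]
      refine ⟨a, c, hac, hRb P hP1, ?_⟩
      have h4 : (fun k => (m k)⁻¹ • mom P k) = fun _ => (0 : E3) := by
        funext k; rw [hz k, smul_zero]
      have h5 : cm m a b (fun _ => (0 : E3)) a - cm m a b (fun _ => (0 : E3)) c = 0 := by
        unfold cm; simp
      rw [h4, h5, norm_zero]
      exact Real.sqrt_pos.mpr htpos
    obtain ⟨s, hs⟩ : ∃ s : ℝ, s = Real.sqrt (K / kin m (mom P)) := ⟨_, rfl⟩
    rw [← hs] at hP2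
    have hs2 : s ^ 2 = K / kin m (mom P) := by
      rw [hs]; exact Real.sq_sqrt (div_nonneg hK.le hkin.le)
    have hs0 : 0 < s := by rw [hs]; exact Real.sqrt_pos.mpr (div_pos hK hkin)
    have hs2K : K ≤ s ^ 2 := by
      rw [hs2, le_div_iff₀ hkin]
      nlinarith
    have hvel : vel m (q, s • mom P) = fun k => s • ((m k)⁻¹ • mom P k) := by
      funext k
      simp only [vel, Pi.smul_apply]
      rw [smul_comm]
    have hcm : ∀ i j, cm m a b (vel m (q, s • mom P)) i - cm m a b (vel m (q, s • mom P)) j =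
        s • (cm m a b (fun k => (m k)⁻¹ • mom P k) i - cm m a b (fun k => (m k)⁻¹ • mom P k) j) := by
      intro i j
      rw [hvel, cm_smul, cm_smul, smul_sub]
    have hsurf : (q, s • mom P) ∈ Surf m E := by
      refine ⟨hq, hcen, ?_, ?_⟩
      · have : ∑ i, (s • mom P) i = s • ∑ i, mom P i := by
          rw [Finset.smul_sum]; rfl
        rw [this, mom_sum, smul_zero]
      · have h1 : ∑ i, ‖(s • mom P) i‖ ^ 2 / (2 * m i) = s ^ 2 * kin m (mom P) := by
          unfold kin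
          rw [Finset.mul_sum]
          refine Finset.sum_congr rfl fun i _ => ?_
          rw [Pi.smul_apply, norm_smul, Real.norm_eq_abs, mul_pow, sq_abs]; ring
        show ∑ i, ‖(s • mom P) i‖ ^ 2 / (2 * m i) - pot m q = E
        rw [h1, hs2, div_mul_cancel₀ _ hkin.ne', hKdef]; ring
    have hsq : Real.sqrt w2 ^ 2 = w2 := Real.sq_sqrt hw2pos.le
    have hsqw : Real.sqrt w2 = Real.sqrt K * Real.sqrt t := by
      rw [hKt, Real.sqrt_mul hK.le]
    have hsK : Real.sqrt K ≤ s := by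
      rw [← Real.sqrt_sq hs0.le]; exact Real.sqrt_le_sqrt hs2K
    have hKpos : 0 < Real.sqrt K := Real.sqrt_pos.mpr hK
    have htr : ∀ X V : E3, gr X (s • V) < w2 * ‖X‖ ^ 2 → gr X V < t * ‖X‖ ^ 2 := by
      intro X V h
      rw [gr_smul, hKt] at h
      by_contra hcon
      push Not at hcon
      have h0 : 0 ≤ t * ‖X‖ ^ 2 := by positivity
      have h1 : K * (t * ‖X‖ ^ 2) ≤ s ^ 2 * gr X V := by gcongr
      linarith
    rcases pointwise hn m M μ hμ hμm hMdef.ge E hE ψ φ hφ (q, s • mom P) hsurf hP2 a b hab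
      (Real.sqrt w2) δ (Real.sqrt_pos.mpr hw2pos) hδ
      (by rw [hsq, hw2, ← hA]; exact le_of_eq (by field_simp)) hδq hr with h | h
    · left
      obtain ⟨i, j, hP, h1⟩ := h
      simp only [mem_iUnion]
      refine ⟨i, j, hP, hRb P hP1, ?_⟩
      rw [hcm, norm_smul, Real.norm_of_nonneg hs0.le, hsqw] at h1
      by_contra hcon
      push Not at hcon
      have : Real.sqrt K * Real.sqrt t ≤ s * ‖cm m a b (fun k => (m k)⁻¹ • mom P k) i
          - cm m a b (fun k => (m k)⁻¹ • mom P k) j‖ := by gcongr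
      linarith
    · right
      obtain ⟨i, j, k, l, hP, hP', hD, h1, _, h2, _⟩ := h
      simp only [mem_iUnion]
      rw [hcm, hsq] at h1 h2
      exact ⟨i, j, k, l, ⟨hP, hP', hD⟩, hRb P hP1, htr _ _ h1, htr _ _ h2⟩
  refine (measure_mono hincl).trans ?_
  have hst : 0 < Real.sqrt t := Real.sqrt_pos.mpr htpos
  have hb : volume (⋃ i : Fin (n + 1), ⋃ j : Fin (n + 1), {P : Fin n → E3 | P2 a b i j ∧
      ‖P‖ ≤ R ∧ ‖cm m a b (fun k => (m k)⁻¹ • mom P k) i
          - cm m a b (fun k => (m k)⁻¹ • mom P k) j‖ < Real.sqrt t}) ≤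
      ∑ i : Fin (n + 1), ∑ j : Fin (n + 1), ENNReal.ofReal (Cf a b i j * Real.sqrt t ^ 3) := by
    refine (measure_iUnion_fintype_le _ _).trans (Finset.sum_le_sum fun i _ =>
      (measure_iUnion_fintype_le _ _).trans (Finset.sum_le_sum fun j _ => ?_))
    by_cases hP : P2 a b i j
    · exact (measure_mono fun P hP' => hP'.2).trans (hCf a b i j hab hP _ hst.le)
    · have : {P : Fin n → E3 | P2 a b i j ∧
        ‖P‖ ≤ R ∧ ‖cm m a b (fun k => (m k)⁻¹ • mom P k) i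
          - cm m a b (fun k => (m k)⁻¹ • mom P k) j‖ < Real.sqrt t} = ∅ := by
        ext P
        exact ⟨fun h => absurd h.1 hP, fun h => h.elim⟩
      rw [this, measure_empty]
      exact zero_le
  have hb2 : volume (⋃ i : Fin (n + 1), ⋃ j : Fin (n + 1), ⋃ k : Fin (n + 1),
        ⋃ l : Fin (n + 1), {P : Fin n → E3 | (P2 a b i j ∧ P2 a b k l ∧ Diff a b i j k l) ∧
        ‖P‖ ≤ R ∧
        gr (cm m a b q i - cm m a b q j) (cm m a b (fun k => (m k)⁻¹ • mom P k) i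
          - cm m a b (fun k => (m k)⁻¹ • mom P k) j) <
          t * ‖cm m a b q i - cm m a b q j‖ ^ 2 ∧
        gr (cm m a b q k - cm m a b q l) (cm m a b (fun k => (m k)⁻¹ • mom P k) k
          - cm m a b (fun k => (m k)⁻¹ • mom P k) l) <
          t * ‖cm m a b q k - cm m a b q l‖ ^ 2}) ≤
      ∑ i : Fin (n + 1), ∑ j : Fin (n + 1), ∑ k : Fin (n + 1), ∑ l : Fin (n + 1),
        ENNReal.ofReal (Cg a b i j k l * t ^ 2) := by
    refine (measure_iUnion_fintype_le _ _).trans (Finset.sum_le_sum fun i _ =>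
      (measure_iUnion_fintype_le _ _).trans (Finset.sum_le_sum fun j _ =>
      (measure_iUnion_fintype_le _ _).trans (Finset.sum_le_sum fun k _ =>
      (measure_iUnion_fintype_le _ _).trans (Finset.sum_le_sum fun l _ => ?_))))
    by_cases hP : P2 a b i j ∧ P2 a b k l ∧ Diff a b i j k l
    · exact (measure_mono fun P hP' => hP'.2).trans (hCg a b i j k l hab hP.1 hP.2.1 hP.2.2 _ _
        (hXne i j hP.1) (hXne k l hP.2.1) t htpos.le)
    · refine le_trans (le_of_eq ?_) zero_le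
      rw [← measure_empty (μ := (volume : Measure (Fin n → E3)))]
      congr 1
      ext P
      exact ⟨fun h => absurd h.1 hP, fun h => h.elim⟩
  refine (measure_union_le _ _).trans ((add_le_add hb hb2).trans ?_)
  have ht1 : Real.sqrt t ≤ 1 := by
    rw [← Real.sqrt_one]
    refine Real.sqrt_le_sqrt ?_
    rw [ht, hw2, div_div, div_le_one (by positivity)]
    linarith
  have ht2 : t ^ 2 ≤ Real.sqrt t ^ 3 := by
    have h1 : t = Real.sqrt t ^ 2 := (Real.sq_sqrt htpos.le).symm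
    calc t ^ 2 = Real.sqrt t ^ 3 * Real.sqrt t := by
          conv_lhs => rw [h1]
          ring
      _ ≤ Real.sqrt t ^ 3 * 1 := by gcongr
      _ = _ := mul_one _
  obtain ⟨T, hT⟩ : ∃ T : ℝ, T = Real.sqrt t ^ 3 := ⟨_, rfl⟩
  have hTpos : 0 < T := by rw [hT]; positivity
  rw [← hT] at ht2 ⊢
  have hsum : ∑ i : Fin (n + 1), ∑ j : Fin (n + 1), ENNReal.ofReal (Cf a b i j * T) +
      ∑ i : Fin (n + 1), ∑ j : Fin (n + 1), ∑ k : Fin (n + 1), ∑ l : Fin (n + 1),
        ENNReal.ofReal (Cg a b i j k l * t ^ 2) ≤ ENNReal.ofReal (Cs * T) := by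
    have e1 : ∑ i : Fin (n + 1), ∑ j : Fin (n + 1), ENNReal.ofReal (Cf a b i j * T) =
        ENNReal.ofReal (∑ i, ∑ j, Cf a b i j * T) := by
      rw [ENNReal.ofReal_sum_of_nonneg (fun i _ => Finset.sum_nonneg fun j _ =>
        mul_nonneg (hCf0 a b i j) hTpos.le)]
      refine Finset.sum_congr rfl fun i _ => ?_
      rw [ENNReal.ofReal_sum_of_nonneg (fun j _ => mul_nonneg (hCf0 a b i j) hTpos.le)]
    have e2 : ∑ i : Fin (n + 1), ∑ j : Fin (n + 1), ∑ k : Fin (n + 1), ∑ l : Fin (n + 1),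
        ENNReal.ofReal (Cg a b i j k l * t ^ 2) ≤
        ENNReal.ofReal (∑ i, ∑ j, ∑ k, ∑ l, Cg a b i j k l * T) := by
      have hn1 : ∀ i j k l, 0 ≤ Cg a b i j k l * T := fun i j k l =>
        mul_nonneg (hCg0 a b i j k l) hTpos.le
      rw [ENNReal.ofReal_sum_of_nonneg (fun i _ => Finset.sum_nonneg fun j _ =>
        Finset.sum_nonneg fun k _ => Finset.sum_nonneg fun l _ => hn1 i j k l)]
      refine Finset.sum_le_sum fun i _ => ?_
      rw [ENNReal.ofReal_sum_of_nonneg (fun j _ =>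
        Finset.sum_nonneg fun k _ => Finset.sum_nonneg fun l _ => hn1 i j k l)]
      refine Finset.sum_le_sum fun j _ => ?_
      rw [ENNReal.ofReal_sum_of_nonneg (fun k _ => Finset.sum_nonneg fun l _ => hn1 i j k l)]
      refine Finset.sum_le_sum fun k _ => ?_
      rw [ENNReal.ofReal_sum_of_nonneg (fun l _ => hn1 i j k l)]
      refine Finset.sum_le_sum fun l _ => ENNReal.ofReal_le_ofReal ?_
      exact mul_le_mul_of_nonneg_left ht2 (hCg0 a b i j k l)
    rw [e1]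
    refine (add_le_add le_rfl e2).trans ?_
    rw [← ENNReal.ofReal_add (Finset.sum_nonneg fun i _ => Finset.sum_nonneg fun j _ =>
      mul_nonneg (hCf0 a b i j) hTpos.le) (Finset.sum_nonneg fun i _ =>
      Finset.sum_nonneg fun j _ => Finset.sum_nonneg fun k _ => Finset.sum_nonneg fun l _ =>
      mul_nonneg (hCg0 a b i j k l) hTpos.le)]
    refine ENNReal.ofReal_le_ofReal ?_
    simp only [← Finset.sum_mul]
    rw [← add_mul]
    exact mul_le_mul_of_nonneg_right (hCsle a b) hTpos.le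
  refine hsum.trans ?_
  calc ENNReal.ofReal (Cs * T) ≤ ENNReal.ofReal (Real.sqrt (C / (δ * K)) ^ 3 * v0) := by
        refine ENNReal.ofReal_le_ofReal ?_
        obtain ⟨g, hg⟩ : ∃ g : ℝ, g = 1 + Cs / v0 := ⟨_, rfl⟩
        have hg1 : 1 ≤ g := by rw [hg]; linarith
        have h1 : t * g ≤ C / (δ * K) := by
          rw [ht, hw2, div_div, div_mul_eq_mul_div]
          refine div_le_div_of_nonneg_right ?_ (by positivity)
          rw [hg]; exact hC1
        have h2 : Real.sqrt t * Real.sqrt g ≤ Real.sqrt (C / (δ * K)) := by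
          rw [← Real.sqrt_mul htpos.le]; exact Real.sqrt_le_sqrt h1
        have h3 : T * Real.sqrt g ^ 3 ≤ Real.sqrt (C / (δ * K)) ^ 3 := by
          rw [hT, ← mul_pow]; gcongr
        have h4 : 1 ≤ Real.sqrt g := by rw [← Real.sqrt_one]; exact Real.sqrt_le_sqrt hg1
        have h5 : g ≤ Real.sqrt g ^ 3 := by
          have h6 : g = Real.sqrt g ^ 2 := (Real.sq_sqrt (by linarith)).symm
          calc g = Real.sqrt g ^ 2 * 1 := by rw [mul_one]; exact h6
            _ ≤ Real.sqrt g ^ 2 * Real.sqrt g := by gcongr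
            _ = _ := by ring
        have h7 : Cs / v0 ≤ g := by rw [hg]; linarith
        calc Cs * T = T * (Cs / v0) * v0 := by field_simp
          _ ≤ T * Real.sqrt g ^ 3 * v0 := by
              have := h7.trans h5
              gcongr
          _ ≤ _ := by gcongr
    _ = ENNReal.ofReal (Real.sqrt (C / (δ * K)) ^ 3) * ENNReal.ofReal v0 :=
        ENNReal.ofReal_mul (by positivity)
    _ ≤ _ := by gcongr

end Pool.Agent.T6.H52.NW
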