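import Pool.Agent.Y516.NW.Stm

set_option autoImplicit false

/-! MP_70f7a7_an: near a point the time integral of `ψ` along every orbit is bounded below
(version of `Pool.Agent.Y275.NW.loc` for single orbits). -/

namespace Pool.Agent.T6.H52.NW

open Set Filter Topology

theorem loc2 {F : Type*} [NormedAddCommGroup F] [NormedSpace ℝ F] (Ω : Set F) (Z : F → F)
    (ψ : F → ℝ) (hΩ : IsOpen Ω) (hZ : ContinuousOn Z Ω) (hψ : ContinuousOn ψ Ω)
    (hpos : ∀ x ∈ Ω, 0 < ψ x) (x0 : F) (hx0 : x0 ∈ Ω) :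
    ∃ V : Set F, IsOpen V ∧ x0 ∈ V ∧ ∃ s1 > 0, ∃ η > 0, ∀ (γ z : ℝ → F), γ 0 ∈ V →
      (∀ t, γ t ∈ Ω ∧ HasDerivAt γ (z t) t ∧ ‖z t‖ ≤ ‖Z (γ t)‖) →
      ∀ τ : ℝ → ℝ, τ 0 = 0 → (∀ t, HasDerivAt τ (ψ (γ t)) t) → ∀ t ≥ s1, η ≤ τ t := by
  have h1 : ∀ᶠ x in 𝓝 x0, x ∈ Ω := hΩ.mem_nhds hx0
  have h2 : ∀ᶠ x in 𝓝 x0, ‖Z x‖ < ‖Z x0‖ + 1 :=
    ((hZ.continuousAt (hΩ.mem_nhds hx0)).norm).eventually_lt_const (lt_add_one _)
  have h3 : ∀ᶠ x in 𝓝 x0, ψ x0 / 2 < ψ x :=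
    (hψ.continuousAt (hΩ.mem_nhds hx0)).eventually_const_lt (by have := hpos x0 hx0; linarith)
  obtain ⟨ρ, hρ, hball⟩ := Metric.eventually_nhds_iff_ball.1 (h1.and (h2.and h3))
  obtain ⟨L, hL⟩ : ∃ L, L = ‖Z x0‖ + 1 := ⟨_, rfl⟩
  have hLp : 0 < L := by rw [hL]; positivity
  have hψ0 := hpos x0 hx0
  obtain ⟨s1, hs1⟩ : ∃ s1, s1 = ρ / (4 * L) := ⟨_, rfl⟩
  have hs1p : 0 < s1 := by rw [hs1]; positivity
  have hLs : L * s1 < ρ / 2 := by
    rw [hs1]
    have : L * (ρ / (4 * L)) = ρ / 4 := by field_simp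
    rw [this]
    linarith
  refine ⟨Metric.ball x0 (ρ / 2), Metric.isOpen_ball, Metric.mem_ball_self (by positivity), s1,
    hs1p, ψ x0 / 2 * s1, by positivity, ?_⟩
  intro γ z hyb hγ τ hτ0 hτ t ht
  have hcont : Continuous γ :=
    continuous_iff_continuousAt.2 fun s => (hγ s).2.1.continuousAt
  have hstay : ∀ s, 0 ≤ s → s ≤ s1 → γ s ∈ Metric.ball x0 ρ := by
    by_contra hcon
    push Not at hcon
    obtain ⟨s, hs0, hss, hsb⟩ := hcon
    obtain ⟨A, hA⟩ : ∃ A : Set ℝ, A = Icc 0 s1 ∩ {s | ρ ≤ ‖γ s - x0‖} := ⟨_, rfl⟩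
    have hcl : IsClosed A := by
      rw [hA]
      exact isClosed_Icc.inter (isClosed_le continuous_const
        ((hcont.sub continuous_const).norm))
    have hne : A.Nonempty := by
      rw [hA]
      refine ⟨s, ⟨hs0, hss⟩, ?_⟩
      rw [mem_ball_iff_norm] at hsb
      exact not_lt.1 hsb
    have hbd : BddBelow A := by
      rw [hA]
      exact ⟨0, fun x hx => hx.1.1⟩
    have hT := hcl.csInf_mem hne hbd
    obtain ⟨T, hTT⟩ : ∃ T, T = sInf A := ⟨_, rfl⟩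
    rw [← hTT] at hT
    have hT2 := hT
    rw [hA] at hT2
    obtain ⟨⟨hT0, hTs⟩, hTρ⟩ := hT2
    have hlow : ∀ u ∈ Ico 0 T, ‖z u‖ ≤ L := by
      intro u hu
      have h4 : γ u ∈ Metric.ball x0 ρ := by
        by_contra hc
        have h5 : u ∈ A := by
          rw [hA]
          refine ⟨⟨hu.1, hu.2.le.trans hTs⟩, ?_⟩
          rw [mem_ball_iff_norm] at hc
          exact not_lt.1 hc
        have h6 := csInf_le hbd h5
        rw [← hTT] at h6
        linarith [hu.2]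
      rw [hL]
      exact (hγ u).2.2.trans (hball _ h4).2.1.le
    have h7 := norm_image_sub_le_of_norm_deriv_le_segment' (f := γ)
      (f' := z) (a := 0) (b := T) (C := L)
      (fun x _ => (hγ x).2.1.hasDerivWithinAt) hlow T ⟨hT0, le_rfl⟩
    simp only [sub_zero] at h7
    have h8 : ‖γ 0 - x0‖ < ρ / 2 := by
      rw [← mem_ball_iff_norm]
      exact hyb
    have h9 : ρ ≤ ‖γ T - x0‖ := hTρ
    have h10 : ‖γ T - x0‖ ≤ ‖γ T - γ 0‖ + ‖γ 0 - x0‖ := by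
      have : γ T - x0 = (γ T - γ 0) + (γ 0 - x0) := by abel
      rw [this]
      exact norm_add_le _ _
    have h11 : L * T ≤ L * s1 := by gcongr
    linarith
  have hmono : Monotone τ := by
    apply monotone_of_deriv_nonneg (fun s => (hτ s).differentiableAt)
    intro s
    rw [(hτ s).deriv]
    exact (hpos _ (hγ s).1).le
  have h4 : ψ x0 / 2 * s1 ≤ τ s1 := by
    have h5 := Convex.mul_sub_le_image_sub_of_le_deriv (D := Icc 0 s1) (convex_Icc 0 s1)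
      (f := τ) (fun s _ => (hτ s).continuousAt.continuousWithinAt)
      (fun s _ => (hτ s).differentiableAt.differentiableWithinAt) (C := ψ x0 / 2) (by
        intro s hs
        rw [interior_Icc] at hs
        rw [(hτ s).deriv]
        exact (hball _ (hstay s hs.1.le hs.2.le)).2.2.le) 0 ⟨le_rfl, hs1p.le⟩ s1 ⟨hs1p.le, le_rfl⟩
        hs1p.le
    rw [hτ0] at h5
    linarith
  exact h4.trans (hmono ht)

end Pool.Agent.T6.H52.NW
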