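import Pool.Agent.T6.H52.NW.Curve
import Pool.Agent.T6.H52.NW.Loc

set_option autoImplicit false

/-! MP_70f7a7_an: points from which the clusters escape in one direction of time are wandering. -/

namespace Pool.Agent.T6.H52.NW

open MeasureTheory Set Pool.Agent.Y516.NW

variable {N : ℕ}

/-- velocities, for the direction of time `σ = ±1` -/
noncomputable def vs (m : Fin N → ℝ) (σ : ℝ) (x : Cfg N × Cfg N) : Cfg N :=
  fun k => σ • vel m x k

theorem ok_norm {w : ℝ} (hw : 0 < w) {X V : E3} (hX : 0 < ‖X‖) (h : Ok w X V) : w ≤ ‖V‖ := by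
  rcases h with h1 | h1
  · have h3 : gr X V ≤ ‖X‖ ^ 2 * ‖V‖ ^ 2 := by
      unfold gr; nlinarith [sq_nonneg (inner ℝ X V)]
    have h4 : w ^ 2 ≤ ‖V‖ ^ 2 := by
      have h5 := h1.trans h3
      have h6 : 0 < ‖X‖ ^ 2 := by positivity
      by_contra hcon
      push Not at hcon
      nlinarith
    exact (pow_le_pow_iff_left₀ hw.le (norm_nonneg _) two_ne_zero).1 h4
  · exact h1.2

theorem mot_signed (m : Fin N → ℝ) (hm : ∀ i, 0 < m i) (E : ℝ) (ψ : Cfg N × Cfg N → ℝ)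
    (hψc : ContinuousOn ψ (Free N)) (hψ : ∀ x ∈ Free N, 0 < ψ x) (σ : ℝ) (hσ : σ * σ = 1)
    (γ : ℝ → Cfg N × Cfg N)
    (hγ : ∀ t, γ t ∈ Surf m E ∧ HasDerivAt γ (σ • Z m ψ (γ t)) t) :
    ∃ τ : ℝ → ℝ, Mot m E (fun t => (γ t).1) (fun t => vs m σ (γ t)) (fun t => ψ (γ t)) τ := by
  have hcont : Continuous γ :=
    continuous_iff_continuousAt.mpr fun t => (hγ t).2.continuousAt
  have hc : Continuous fun t => ψ (γ t) :=
    hψc.comp_continuous hcont (fun t => surf_free m E (hγ t).1)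
  refine ⟨fun t => ∫ s in (0:ℝ)..t, ψ (γ s), ?_⟩
  have hd1 : ∀ t, HasDerivAt (fun s => (γ s).1) (σ • (Z m ψ (γ t)).1) t := fun t =>
    (ContinuousLinearMap.fst ℝ (Cfg N) (Cfg N)).hasFDerivAt.comp_hasDerivAt t (hγ t).2
  have hd2 : ∀ t, HasDerivAt (fun s => (γ s).2) (σ • (Z m ψ (γ t)).2) t := fun t =>
    (ContinuousLinearMap.snd ℝ (Cfg N) (Cfg N)).hasFDerivAt.comp_hasDerivAt t (hγ t).2
  refine ⟨by simp, ?_, ?_, ?_, ?_, ?_, ?_⟩
  · intro t
    exact intervalIntegral.integral_hasDerivAt_right (hc.intervalIntegrable _ _)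
      (hc.stronglyMeasurableAtFilter _ _) hc.continuousAt
  · intro t
    exact hψ _ (surf_free m E (hγ t).1)
  · intro t i
    refine (hasDerivAt_pi.mp (hd1 t) i).congr_deriv ?_
    simp only [Z, vs, vel, Prod.smul_fst, Pi.smul_apply, smul_smul]
    congr 1
    ring
  · intro t i
    have h1 := ((hasDerivAt_pi.mp (hd2 t) i).const_smul ((m i)⁻¹)).const_smul σ
    refine h1.congr_deriv ?_
    simp only [Z, acc, Prod.smul_snd, Pi.smul_apply, Finset.smul_sum, smul_smul]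
    refine Finset.sum_congr rfl fun j _ => ?_
    congr 1
    have := (hm i).ne'
    calc σ * ((m i)⁻¹ * (σ * (ψ (γ t) * (m i * m j / ‖(γ t).1 j - (γ t).1 i‖ ^ 3))))
        = (σ * σ) * (ψ (γ t) * (((m i)⁻¹ * m i) * m j / ‖(γ t).1 j - (γ t).1 i‖ ^ 3)) := by ring
      _ = _ := by rw [hσ, inv_mul_cancel₀ this]; ring
  · intro t i j hij
    exact (hγ t).1.1 i j hij
  · intro t
    rw [← (hγ t).1.2.2.2]
    congr 1
    refine Finset.sum_congr rfl fun i _ => ?_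
    simp only [vs, vel, norm_smul, norm_inv, Real.norm_of_nonneg (hm i).le]
    have := (hm i).ne'
    have hσ2 : ‖σ‖ ^ 2 = 1 := by rw [Real.norm_eq_abs, sq_abs, sq, hσ]
    calc m i * (‖σ‖ * ((m i)⁻¹ * ‖(γ t).2 i‖)) ^ 2 / 2
        = ‖σ‖ ^ 2 * (m i * ((m i)⁻¹ * ‖(γ t).2 i‖) ^ 2 / 2) := by ring
      _ = _ := by rw [hσ2]; field_simp

theorem vs_cont (m : Fin N → ℝ) (σ : ℝ) (a b i : Fin N) :
    Continuous fun x : Cfg N × Cfg N => cm m a b (vs m σ x) i := by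
  have hv : ∀ k, Continuous fun x : Cfg N × Cfg N => vs m σ x k := fun k =>
    (((continuous_apply k).comp continuous_snd).const_smul ((m k)⁻¹)).const_smul σ
  unfold cm
  split_ifs
  · exact ((((hv a).const_smul (m a)).add ((hv b).const_smul (m b))).const_smul ((m a + m b)⁻¹))
  · exact hv i

/-- A point with a tight pair such that, in the direction of time `σ`, the relative velocities of
the clusters are transversal or move them apart, has a neighbourhood that no orbit starting in it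
visits again at late times (in the direction `σ`). -/
theorem escape
    (m : Fin N → ℝ) (M μ : ℝ) (hμ : 0 < μ) (hm : ∀ i, μ ≤ m i) (hM : ∑ i, m i ≤ M)
    (a b : Fin N) (hab : a ≠ b) (E : ℝ) (hE : E ≤ 0) (ψ : Cfg N × Cfg N → ℝ)
    (hψc : ContinuousOn ψ (Free N)) (hψ : ∀ x ∈ Free N, 0 < ψ x) (σ : ℝ) (hσ : σ * σ = 1)
    (x : Cfg N × Cfg N)
    (hx : x ∈ Surf m E) (i₀ j₀ : Fin N) (hP₀ : P2 a b i₀ j₀)
    (w δ : ℝ) (hw : 0 < w) (hδ : 0 < δ) (hC : 8000 * (M + M ^ 2 / μ) ≤ w ^ 2 * δ)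
    (hX : ∀ i j, P2 a b i j → δ ≤ ‖cm m a b x.1 i - cm m a b x.1 j‖)
    (hG : ∀ i j, P2 a b i j → Ok w (cm m a b x.1 i - cm m a b x.1 j)
      (cm m a b (vs m σ x) i - cm m a b (vs m σ x) j))
    (hr : ‖x.1 a - x.1 b‖ ≤ δ / 64) :
    ∃ U : Set (Cfg N × Cfg N), IsOpen U ∧ x ∈ U ∧ ∃ s1 > 0, ∀ γ : ℝ → Cfg N × Cfg N,
      (∀ t, γ t ∈ Surf m E ∧ HasDerivAt γ (σ • Z m ψ (γ t)) t) → γ 0 ∈ U →
      ∀ t ≥ s1, γ t ∉ U := by
  have hmpos : ∀ i, 0 < m i := fun i => hμ.trans_le (hm i)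
  set V0 : E3 := cm m a b (vs m σ x) i₀ - cm m a b (vs m σ x) j₀ with hV0
  have hV0w : w ≤ ‖V0‖ := ok_norm hw (hδ.trans_le (hX i₀ j₀ hP₀)) (hG i₀ j₀ hP₀)
  -- the neighbourhood
  let U1 : Set (Cfg N × Cfg N) := {y | (∀ p : Fin N × Fin N, P2 a b p.1 p.2 →
      δ / 2 < ‖cm m a b y.1 p.1 - cm m a b y.1 p.2‖ ∧
      ((w / 2) ^ 2 * ‖cm m a b y.1 p.1 - cm m a b y.1 p.2‖ ^ 2 <
        gr (cm m a b y.1 p.1 - cm m a b y.1 p.2)
          (cm m a b (vs m σ y) p.1 - cm m a b (vs m σ y) p.2) ∨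
        (0 < inner ℝ (cm m a b y.1 p.1 - cm m a b y.1 p.2)
          (cm m a b (vs m σ y) p.1 - cm m a b (vs m σ y) p.2) ∧
          w / 2 < ‖cm m a b (vs m σ y) p.1 - cm m a b (vs m σ y) p.2‖)))}
  let U2 : Set (Cfg N × Cfg N) := {y | ‖y.1 a - y.1 b‖ < δ / 32}
  let U3 : Set (Cfg N × Cfg N) :=
    {y | ‖(cm m a b (vs m σ y) i₀ - cm m a b (vs m σ y) j₀) - V0‖ < w / 16}
  have hU1 : IsOpen U1 := by
    have : U1 = ⋂ p : Fin N × Fin N, {y | P2 a b p.1 p.2 →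
      δ / 2 < ‖cm m a b y.1 p.1 - cm m a b y.1 p.2‖ ∧
      ((w / 2) ^ 2 * ‖cm m a b y.1 p.1 - cm m a b y.1 p.2‖ ^ 2 <
        gr (cm m a b y.1 p.1 - cm m a b y.1 p.2)
          (cm m a b (vs m σ y) p.1 - cm m a b (vs m σ y) p.2) ∨
        (0 < inner ℝ (cm m a b y.1 p.1 - cm m a b y.1 p.2)
          (cm m a b (vs m σ y) p.1 - cm m a b (vs m σ y) p.2) ∧
          w / 2 < ‖cm m a b (vs m σ y) p.1 - cm m a b (vs m σ y) p.2‖))} := by
      ext y; simp only [U1, mem_iInter]; rfl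
    rw [this]
    refine isOpen_iInter_of_finite fun p => ?_
    by_cases hP : P2 a b p.1 p.2
    · have hPt : P2 a b p.1 p.2 = True := eq_true hP
      rw [hPt]
      simp only [true_imp_iff]
      have c1 := (cm_cont1 m a b p.1).sub (cm_cont1 m a b p.2)
      have c2 := (vs_cont m σ a b p.1).sub (vs_cont m σ a b p.2)
      have o1 : IsOpen {y : Cfg N × Cfg N | δ / 2 < ‖cm m a b y.1 p.1 - cm m a b y.1 p.2‖} :=
        isOpen_lt continuous_const c1.norm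
      have o2 : IsOpen {y : Cfg N × Cfg N |
          (w / 2) ^ 2 * ‖cm m a b y.1 p.1 - cm m a b y.1 p.2‖ ^ 2 <
          gr (cm m a b y.1 p.1 - cm m a b y.1 p.2)
          (cm m a b (vs m σ y) p.1 - cm m a b (vs m σ y) p.2)} := by
        refine isOpen_lt (continuous_const.mul (c1.norm.pow 2)) ?_
        unfold gr
        exact ((c1.norm.pow 2).mul (c2.norm.pow 2)).sub ((c1.inner c2).pow 2)
      have o3 : IsOpen {y : Cfg N × Cfg N |
          0 < inner ℝ (cm m a b y.1 p.1 - cm m a b y.1 p.2)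
          (cm m a b (vs m σ y) p.1 - cm m a b (vs m σ y) p.2)} :=
        isOpen_lt continuous_const (c1.inner c2)
      have o4 : IsOpen {y : Cfg N × Cfg N |
          w / 2 < ‖cm m a b (vs m σ y) p.1 - cm m a b (vs m σ y) p.2‖} :=
        isOpen_lt continuous_const c2.norm
      exact o1.inter (o2.union (o3.inter o4))
    · have hPt : P2 a b p.1 p.2 = False := eq_false hP
      rw [hPt]
      simp only [false_imp_iff]
      exact isOpen_univ
  have hU2 : IsOpen U2 := isOpen_lt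
    ((((continuous_apply a).comp continuous_fst).sub ((continuous_apply b).comp
      continuous_fst)).norm) continuous_const
  have hU3 : IsOpen U3 := isOpen_lt
    ((((vs_cont m σ a b i₀).sub (vs_cont m σ a b j₀)).sub continuous_const).norm) continuous_const
  have hxU1 : x ∈ U1 := by
    rintro ⟨i, j⟩ hP
    have h1 := hX i j hP
    have h2 := hG i j hP
    have h3 : 0 < ‖cm m a b x.1 i - cm m a b x.1 j‖ := hδ.trans_le h1
    refine ⟨by dsimp only; linarith, ?_⟩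
    rcases h2 with h2 | h2
    · left
      refine lt_of_lt_of_le ?_ h2
      dsimp only
      have h4 : 0 < w ^ 2 * ‖cm m a b x.1 i - cm m a b x.1 j‖ ^ 2 := by positivity
      nlinarith
    · right
      exact ⟨h2.1, by dsimp only; linarith [h2.2]⟩
  have hxU2 : x ∈ U2 := by
    show ‖x.1 a - x.1 b‖ < δ / 32
    linarith
  have hxU3 : x ∈ U3 := by
    show ‖(cm m a b (vs m σ x) i₀ - cm m a b (vs m σ x) j₀) - V0‖ < w / 16
    rw [← hV0, sub_self, norm_zero]; positivity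
  -- local time
  obtain ⟨V1, hV1o, hxV1, s1, hs1, η, hη, hloc⟩ := loc2 (Free N)
    (Z m ψ) ψ free_open (Z_cont m ψ hψc) hψc hψ x (surf_free m E hx)
  let G : Cfg N × Cfg N → ℝ := fun y => inner ℝ V0 (cm m a b y.1 i₀ - cm m a b y.1 j₀)
  have hGc : Continuous G :=
    continuous_const.inner ((cm_cont1 m a b i₀).sub (cm_cont1 m a b j₀))
  have hσ1 : |σ| = 1 := by
    have h1 : |σ| * |σ| = 1 := by rw [← abs_mul, hσ, abs_one]
    nlinarith [abs_nonneg σ]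
  -- growth
  have hgrow : ∀ γ : ℝ → Cfg N × Cfg N,
      (∀ t, γ t ∈ Surf m E ∧ HasDerivAt γ (σ • Z m ψ (γ t)) t) →
      γ 0 ∈ (U1 ∩ U2 ∩ U3) ∩ V1 → ∀ t ≥ s1,
      w ^ 2 / 2 * η ≤ G (γ t) - G (γ 0) := by
    rintro γ hγ ⟨⟨⟨hy1, hy2⟩, hy3⟩, hyV⟩ t ht
    obtain ⟨τ, hmot⟩ := mot_signed m hmpos E ψ hψc hψ σ hσ γ hγ
    have hη' := hloc γ (fun t => σ • Z m ψ (γ t)) hyV (fun t => ⟨surf_free m E (hγ t).1, (hγ t).2,
      by rw [norm_smul, Real.norm_eq_abs, hσ1, one_mul]⟩) τ hmot.τ0 hmot.τd t ht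
    have hcur := curve2 m M μ hμ hm hM a b hab _ _ _ τ E hE hmot
      (w / 2) (δ / 2) (by positivity) (by positivity)
      (by nlinarith)
      (fun i j hP => (hy1 (i, j) hP).1.le)
      (fun i j hP => by
        rcases (hy1 (i, j) hP).2 with h | h
        · exact Or.inl h.le
        · exact Or.inr ⟨h.1, h.2.le⟩)
      (by
        have : ‖(γ 0).1 a - (γ 0).1 b‖ < δ / 32 := hy2
        linarith)
    have hder : ∀ s, HasDerivAt (fun s => G (γ s) - w ^ 2 / 2 * τ s)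
        (inner ℝ V0 (ψ (γ s) • (cm m a b (vs m σ (γ s)) i₀ - cm m a b (vs m σ (γ s)) j₀))
          - w ^ 2 / 2 * ψ (γ s)) s := by
      intro s
      have e1 := cm_hasDerivAt m a b _ (fun i => ψ (γ s) • vs m σ (γ s) i) s (hmot.qd s) i₀
      have e2 := cm_hasDerivAt m a b _ (fun i => ψ (γ s) • vs m σ (γ s) i) s (hmot.qd s) j₀
      rw [cm_smul] at e1 e2
      have e3 := (e1.sub e2)
      rw [← smul_sub] at e3
      have e4 : HasDerivAt (fun s => inner ℝ V0 (cm m a b (γ s).1 i₀ - cm m a b (γ s).1 j₀))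
          (inner ℝ V0 (ψ (γ s) • (cm m a b (vs m σ (γ s)) i₀
            - cm m a b (vs m σ (γ s)) j₀))) s :=
        ((innerSL ℝ V0).hasFDerivAt.comp_hasDerivAt s e3)
      exact e4.sub ((hmot.τd s).const_mul _)
    have hmono : MonotoneOn (fun s => G (γ s) - w ^ 2 / 2 * τ s) (Ici 0) := by
      refine monotoneOn_of_deriv_nonneg (convex_Ici 0)
        (fun s _ => (hder s).continuousAt.continuousWithinAt)
        (fun s _ => (hder s).differentiableAt.differentiableWithinAt) ?_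
      intro s hs
      rw [interior_Ici] at hs
      rw [(hder s).deriv, inner_smul_right]
      have hc := hmot.cpos s
      have e1 := hcur s (le_of_lt hs) i₀ j₀ hP₀
      have e2 : ‖(cm m a b (vs m σ (γ 0)) i₀ - cm m a b (vs m σ (γ 0)) j₀) - V0‖ < w / 16 := hy3
      set A := cm m a b (vs m σ (γ s)) i₀ - cm m a b (vs m σ (γ s)) j₀
      set B := cm m a b (vs m σ (γ 0)) i₀ - cm m a b (vs m σ (γ 0)) j₀
      have e3 : ‖A - V0‖ ≤ w / 8 := by
        have : A - V0 = (A - B) + (B - V0) := by abel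
        rw [this]
        refine (norm_add_le _ _).trans ?_
        linarith
      have e4 : inner ℝ V0 A = ‖V0‖ ^ 2 + inner ℝ V0 (A - V0) := by
        rw [inner_sub_right V0 A V0, real_inner_self_eq_norm_sq]; ring
      have e5 : -(‖V0‖ * (w / 8)) ≤ inner ℝ V0 (A - V0) := by
        have h1 := abs_real_inner_le_norm V0 (A - V0)
        have h2 : ‖V0‖ * ‖A - V0‖ ≤ ‖V0‖ * (w / 8) := by gcongr
        have h3 := neg_abs_le (inner ℝ V0 (A - V0))
        linarith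
      have e6 : w ^ 2 / 2 ≤ inner ℝ V0 A := by
        rw [e4]
        nlinarith
      nlinarith
    have h1 := hmono (show (0:ℝ) ∈ Ici 0 from mem_Ici.mpr le_rfl)
      (show t ∈ Ici (0:ℝ) from mem_Ici.mpr (by linarith)) (by linarith)
    simp only [hmot.τ0, mul_zero, sub_zero] at h1
    have h2 : w ^ 2 / 2 * η ≤ w ^ 2 / 2 * τ t := by gcongr
    linarith
  -- conclusion
  let κ := w ^ 2 / 2 * η
  have hκ : 0 < κ := by positivity
  let U4 : Set (Cfg N × Cfg N) := {y | |G y - G x| < κ / 2}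
  have hU4 : IsOpen U4 := isOpen_lt ((hGc.sub continuous_const).abs) continuous_const
  have hxU4 : x ∈ U4 := by
    show |G x - G x| < κ / 2
    rw [sub_self, abs_zero]; positivity
  refine ⟨(U1 ∩ U2 ∩ U3) ∩ V1 ∩ U4,
    ((((hU1.inter hU2).inter hU3).inter hV1o).inter hU4),
    ⟨⟨⟨⟨hxU1, hxU2⟩, hxU3⟩, hxV1⟩, hxU4⟩, s1, hs1, ?_⟩
  intro γ hγ hγ0 t ht hγt
  have h1 := hgrow γ hγ hγ0.1 t ht
  have h2 : |G (γ 0) - G x| < κ / 2 := hγ0.2
  have h3 : |G (γ t) - G x| < κ / 2 := hγt.2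
  rw [abs_lt] at h2 h3
  have h4 : κ = w ^ 2 / 2 * η := rfl
  linarith [h2.1, h2.2, h3.1, h3.2]

/-- two directions of time: `x` is wandering if the clusters escape in one of them -/
theorem wander2
    (m : Fin N → ℝ) (M μ : ℝ) (hμ : 0 < μ) (hm : ∀ i, μ ≤ m i) (hM : ∑ i, m i ≤ M)
    (a b : Fin N) (hab : a ≠ b) (E : ℝ) (hE : E ≤ 0) (ψ : Cfg N × Cfg N → ℝ)
    (φ : ℝ → Cfg N × Cfg N → Cfg N × Cfg N) (hφ : IsFl m E ψ φ) (σ : ℝ) (hσ : σ = 1 ∨ σ = -1)
    (x : Cfg N × Cfg N)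
    (hx : x ∈ Surf m E) (i₀ j₀ : Fin N) (hP₀ : P2 a b i₀ j₀)
    (w δ : ℝ) (hw : 0 < w) (hδ : 0 < δ) (hC : 8000 * (M + M ^ 2 / μ) ≤ w ^ 2 * δ)
    (hX : ∀ i j, P2 a b i j → δ ≤ ‖cm m a b x.1 i - cm m a b x.1 j‖)
    (hG : ∀ i j, P2 a b i j → Ok w (cm m a b x.1 i - cm m a b x.1 j)
      (cm m a b (vs m σ x) i - cm m a b (vs m σ x) j))
    (hr : ‖x.1 a - x.1 b‖ ≤ δ / 64) :
    ¬ NonW (Surf m E) φ x := by
  have hσσ : σ * σ = 1 := by rcases hσ with rfl | rfl <;> norm_num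
  obtain ⟨U, hUo, hxU, s1, hs1, hU⟩ := escape m M μ hμ hm hM a b hab E hE ψ hφ.cont hφ.pos σ hσσ x
    hx i₀ j₀ hP₀ w δ hw hδ hC hX hG hr
  intro hNW
  obtain ⟨t, ht, y, ⟨hyU, hyS⟩, hφy⟩ := hNW U hUo hxU s1
  have hfl := hφ.flow y hyS
  rcases hσ with rfl | rfl
  · refine hU (fun s => φ s y) (fun s => ⟨(hfl.2 s).1, ?_⟩) ?_ t ht.le hφy
    · rw [one_smul]; exact (hfl.2 s).2
    · rw [hfl.1]; exact hyU
  · refine hU (fun s => φ (t - s) y) (fun s => ⟨(hfl.2 _).1, ?_⟩) ?_ t ht.le ?_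
    · have h1 : HasDerivAt (fun s : ℝ => t - s) (-1) s := by
        simpa using (hasDerivAt_id s).const_sub t
      have h2 := (hfl.2 (t - s)).2.scomp s h1
      exact h2
    · simp only [sub_zero]; exact hφy
    · simp only [sub_self]; rw [hfl.1]; exact hyU

end Pool.Agent.T6.H52.NW
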